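import Pool.Agent.Helper51.AT.Main

/-!
# The Alon–Tarsi basis conjecture in dimension two, for all primes

Let `p` be a prime. For any `2p` nonzero vectors of `ℤ_p²` with at most `p` of them on any line
through the origin, and any one of them, `v_{c₀}`, there is a second one, `v_{c₁}`, such that the
remaining `2p - 2` vectors form an AT-basis. In particular, if `B_1, …, B_p` are invertible
`2 × 2` matrices then for every column `c₀` of `[B_1 ⋯ B_p]` there is a column `c₁` such that all
the other columns form an AT-basis; this contains the case `n = 2` of the conjecture.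

Proof. Up to a nonzero factor the permanent is the coefficient of `x^(p-1) y^(p-1)` in the product
of the linear forms, which is invariant under `SL₂`, so let `v_{c₀}` be the form `y`. The forms not
proportional to `y` are, up to scalars, `x - θ y`, and give a monic polynomial `q` of degree
`p + r`, `r < p`. If all coefficients of `t^(p-1)` in the polynomials `q / (t - θ)` vanish, then, in
`q = A + t^p B`, `deg A < p`, all roots of `q` are roots of `B`. So `q` divides
`q' B - q B' = A' B - A B'`, which has smaller degree, so `q' B = q B'`. So all roots of `q` have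
the same multiplicity, at most `r`, in `q` and in `B`, and `p + r = deg q ≤ deg B = r`.
-/

set_option autoImplicit false

namespace Pool.Agent.Results.MP_4e0dfc_co.PlanarBases

open Finset

theorem result (p : ℕ) (hp : p.Prime) :
    (∀ B : Fin p → Matrix (Fin 2) (Fin 2) (ZMod p), (∀ j, (B j).det ≠ 0) →
      ∀ c₀ : Fin p × Fin 2, ∃ c₁ : Fin p × Fin 2, c₁ ≠ c₀ ∧
        ∃ f : Fin (p - 1) × Fin 2 → Fin p × Fin 2, Function.Injective f ∧
          (∀ k, f k ≠ c₀ ∧ f k ≠ c₁) ∧
          Matrix.permanent
            (Matrix.of (fun (r c : Fin (p - 1) × Fin 2) => B (f c).1 r.2 (f c).2)) ≠ 0) ∧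
    (∀ (ι : Type) [Fintype ι], Fintype.card ι = 2 * p → ∀ v : ι → Fin 2 → ZMod p,
      (∀ i, v i ≠ 0) →
      (∀ z : Fin 2 → ZMod p, z ≠ 0 → (univ.filter (fun i => v i ⬝ᵥ z = 0)).card ≤ p) →
      ∀ c₀ : ι, ∃ c₁ : ι, c₁ ≠ c₀ ∧
        ∃ f : Fin (p - 1) × Fin 2 → ι, Function.Injective f ∧ (∀ k, f k ≠ c₀ ∧ f k ≠ c₁) ∧
          Matrix.permanent
            (Matrix.of (fun (r c : Fin (p - 1) × Fin 2) => v (f c) r.2)) ≠ 0) := by
  haveI : Fact p.Prime := ⟨hp⟩
  refine ⟨?_, ?_⟩
  · intro B hB c₀
    refine Pool.Agent.Helper51.AT.main (fun c i => B c.1 i c.2) ?_ ?_ c₀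
    · rintro ⟨j, k⟩ h
      apply hB j
      have h0 : B j 0 k = 0 := congrFun h 0
      have h1 : B j 1 k = 0 := congrFun h 1
      rw [Matrix.det_fin_two]
      fin_cases k
      · simp only [Fin.zero_eta] at h0 h1
        rw [h0, h1]; ring
      · simp only [Fin.mk_one] at h0 h1
        rw [h0, h1]; ring
    · intro z hz
      have hinj : Set.InjOn (fun c : Fin p × Fin 2 => c.1)
          ((univ.filter (fun c : Fin p × Fin 2 => B c.1 0 c.2 * z 0 + B c.1 1 c.2 * z 1 = 0)) :
            Finset (Fin p × Fin 2)) := by
        rintro ⟨j, k⟩ hc ⟨j', k'⟩ hd hjj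
        have hjj' : j = j' := hjj
        subst hjj'
        by_contra hne
        have h1 := (Finset.mem_filter.mp (Finset.mem_coe.mp hc)).2
        have h2 := (Finset.mem_filter.mp (Finset.mem_coe.mp hd)).2
        have hkk : k ≠ k' := fun h => hne (by rw [h])
        have h3 : B j 0 0 * z 0 + B j 1 0 * z 1 = 0 ∧ B j 0 1 * z 0 + B j 1 1 * z 1 = 0 := by
          fin_cases k <;> fin_cases k'
          · exact absurd rfl hkk
          · exact ⟨h1, h2⟩
          · exact ⟨h2, h1⟩
          · exact absurd rfl hkk
        have hdet := hB j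
        rw [Matrix.det_fin_two] at hdet
        apply hz
        ext i
        fin_cases i
        · have : (B j 0 0 * B j 1 1 - B j 0 1 * B j 1 0) * z 0 = 0 := by
            linear_combination B j 1 1 * h3.1 - B j 1 0 * h3.2
          exact (mul_eq_zero.mp this).resolve_left hdet
        · have : (B j 0 0 * B j 1 1 - B j 0 1 * B j 1 0) * z 1 = 0 := by
            linear_combination B j 0 0 * h3.2 - B j 0 1 * h3.1
          exact (mul_eq_zero.mp this).resolve_left hdet
      refine le_trans (Finset.card_le_card_of_injOn (t := (univ : Finset (Fin p)))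
        (fun c => c.1) (fun _ _ => Finset.mem_coe.mpr (mem_univ _)) hinj) ?_
      simp
  · intro ι _ hι v hv0 hv c₀
    classical
    have hcard : Fintype.card ι = Fintype.card (Fin p × Fin 2) := by rw [hι]; simp [mul_comm]
    let e : ι ≃ Fin p × Fin 2 := Fintype.equivOfCardEq hcard
    obtain ⟨c₁, hc₁, f, hf, hf', hper⟩ := Pool.Agent.Helper51.AT.main (fun c => v (e.symm c))
      (fun c => hv0 _) (by
        intro z hz
        refine le_trans (Finset.card_le_card_of_injOn (fun c => e.symm c) ?_
          (fun _ _ _ _ h => e.symm.injective h)) (hv z hz)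
        intro c hc
        have h1 := (Finset.mem_filter.mp (Finset.mem_coe.mp hc)).2
        refine Finset.mem_coe.mpr (Finset.mem_filter.mpr ⟨mem_univ _, ?_⟩)
        rw [dotProduct, Fin.sum_univ_two]
        exact h1) (e c₀)
    refine ⟨e.symm c₁, ?_, fun k => e.symm (f k), fun k l h => hf (e.symm.injective h),
      fun k => ⟨?_, ?_⟩, hper⟩
    · intro h
      apply hc₁
      rw [← h, Equiv.apply_symm_apply]
    · intro h
      apply (hf' k).1
      rw [← h, Equiv.apply_symm_apply]
    · intro h
      exact (hf' k).2 (e.symm.injective h)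

end Pool.Agent.Results.MP_4e0dfc_co.PlanarBases
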